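import Pool.Agent.Helper65.KG.Goals

/-!
# Project KG (MP_20ee5e_ag), packet FB3: the upper bound of a cylinder by a face
-/

set_option autoImplicit false

open MeasureTheory Set

namespace Pool.Agent.Helper26.KG.FB3

open Pool.Agent.Helper70.KN
open Pool.Agent.Helper65.KG

/-- The multiple of the coordinate vector is in the polyhedron. -/
lemma axis_mem {N : ℕ} {V : Finset (Fin N → ℕ)} (b : Fin N) (m : ℕ)
    (hm : (Pi.single b m : Fin N → ℕ) ∈ V) : (fun k => if k = b then (m : ℝ) else 0) ∈ newton V := by
  refine ⟨_, subset_convexHull ℝ _ ⟨Pi.single b m, hm, rfl⟩, ?_⟩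
  intro k
  by_cases hk : k = b
  · subst hk
    simp
  · simp [hk]

/-- The inclusion of the proof. -/
lemma incl {N : ℕ} {V : Finset (Fin N → ℕ)} (J : Finset (Fin N)) (b : Fin N) (m : ℕ) (hb : b ∉ J)
    (hm0 : 0 < m) (hm : (Pi.single b m : Fin N → ℕ) ∈ V) (t : ℝ) (ht0 : 0 ≤ t) (htm : t < m)
    (D : Fin N → ℝ) (hD : ∀ k, D k = if k ∈ insert b J then 1 else (1 - t / m)⁻¹)
    (x : Fin N → ℝ) (hxb : 0 ≤ x b) (hxb1 : x b < 1) (hx : Function.update x b t ∈ cyl V J) :
    (fun k => D k * x k) ∈ cyl V (insert b J) := by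
  have hc : (0 : ℝ) < m := by exact_mod_cast hm0
  have hl : 0 < 1 - t / m := by
    rw [sub_pos, div_lt_one hc]
    exact htm
  obtain ⟨h0, h1, h2⟩ := hx
  have hDp : ∀ k, 0 < D k := by
    intro k
    rw [hD]
    split_ifs
    · exact one_pos
    · exact inv_pos.2 hl
  have hx0 : ∀ k, 0 ≤ x k := by
    intro k
    by_cases hk : k = b
    · subst hk
      exact hxb
    · have := h0 k
      rw [Function.update_of_ne hk] at this
      exact this
  refine ⟨fun k => mul_nonneg (hDp k).le (hx0 k), ?_, ?_⟩
  · intro j hj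
    have hDj : D j = 1 := by
      rw [hD, if_pos hj]
    change D j * x j < 1
    rw [hDj, one_mul]
    by_cases hjb : j = b
    · subst hjb
      exact hxb1
    · have hj' : j ∈ J := (Finset.mem_insert.1 hj).resolve_left hjb
      have := h1 j hj'
      rw [Function.update_of_ne hjb] at this
      exact this
  · intro hw
    apply h2
    have hconv := (pCL N V).2.1
    have h3 := hconv hw (axis_mem b m hm) hl.le (div_nonneg ht0 hc.le) (by ring)
    convert h3 using 1
    funext k
    simp only [Pi.add_apply, Pi.smul_apply, smul_eq_mul]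
    by_cases hk : k = b
    · subst hk
      unfold zr
      rw [if_neg hb, Function.update_self, if_pos (Finset.mem_insert_self k J), if_pos rfl]
      field_simp
      ring
    · unfold zr
      rw [if_neg hk, mul_zero, add_zero]
      by_cases hkJ : k ∈ J
      · rw [if_pos hkJ, if_pos (Finset.mem_insert_of_mem hkJ), mul_zero]
      · have hkn : k ∉ insert b J := by
          rw [Finset.mem_insert, not_or]
          exact ⟨hk, hkJ⟩
        rw [if_neg hkJ, if_neg hkn, Function.update_of_ne hk]
        change x k = (1 - t / m) * (D k * x k)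
        rw [hD k, if_neg hkn, ← mul_assoc, mul_inv_cancel₀ hl.ne', one_mul]

theorem t : S_FB3 := by
  intro N V hV J b m hb hm0 hm
  have hc : (0 : ℝ) < m := by exact_mod_cast hm0
  obtain ⟨hmeas, hfin, -⟩ := pMF N V hV J
  obtain ⟨hmeas', hfin', -⟩ := pMF N V hV (insert b J)
  have hcard : J.card + 1 ≤ N := by
    have := Finset.card_le_univ (insert b J)
    rwa [Fintype.card_fin, Finset.card_insert_of_notMem hb] at this
  set κ := N - J.card - 1 with hκ
  have hup := (pCL N V).2.2
  have hzr0 : ∀ x : Fin N → ℝ, 0 ≤ x → 0 ≤ zr J x := by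
    intro x hx k
    unfold zr
    split_ifs
    · exact le_rfl
    · exact hx k
  have slice : ∀ t : ℝ,
      volume {x : Fin N → ℝ | 0 ≤ x b ∧ x b < 1 ∧ Function.update x b t ∈ cyl V J} ≤
        (Ico (0 : ℝ) m).indicator
          (fun t => ENNReal.ofReal ((1 - t / m) ^ κ) * volume (cyl V (insert b J))) t := by
    intro t
    by_cases ht : t ∈ Ico (0 : ℝ) m
    · rw [indicator_of_mem ht]
      obtain ⟨ht0, htm⟩ := ht
      have hl : 0 < 1 - t / m := by
        rw [sub_pos, div_lt_one hc]
        exact htm
      let D : Fin N → ℝ := fun k => if k ∈ insert b J then 1 else (1 - t / m)⁻¹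
      have hDp : ∀ k, 0 < D k := by
        intro k
        simp only [D]
        split_ifs
        · exact one_pos
        · exact inv_pos.2 hl
      have hprod : ∏ k, D k = ((1 - t / m)⁻¹) ^ κ := by
        simp only [D]
        rw [Finset.prod_ite, Finset.prod_const_one, one_mul, Finset.prod_const]
        congr 1
        have : Finset.univ.filter (fun k => k ∉ insert b J) = (insert b J)ᶜ := by
          ext k
          simp
        rw [this, Finset.card_compl, Fintype.card_fin, Finset.card_insert_of_notMem hb]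
        omega
      rw [pSC N _ D hmeas' hDp, hprod, ← mul_assoc, ← ENNReal.ofReal_mul (pow_nonneg hl.le κ),
        ← mul_pow, mul_inv_cancel₀ hl.ne', one_pow, ENNReal.ofReal_one, one_mul]
      exact measure_mono fun x hx => incl J b m hb hm0 hm t ht0 htm D (fun k => rfl) x hx.1 hx.2.1 hx.2.2
    · rw [indicator_of_notMem ht]
      suffices hE : {x : Fin N → ℝ | 0 ≤ x b ∧ x b < 1 ∧ Function.update x b t ∈ cyl V J} = ∅ by
        rw [hE, measure_empty]
      rw [eq_empty_iff_forall_notMem]
      rintro x ⟨hx0, hx1, hx2, hx3, hx4⟩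
      have ht0 : 0 ≤ t := by
        have := hx2 b
        rwa [Function.update_self] at this
      have htm : (m : ℝ) ≤ t := by
        by_contra hcon
        exact ht ⟨ht0, not_le.1 hcon⟩
      apply hx4
      refine hup ?_ (axis_mem b m hm)
      intro k
      by_cases hk : k = b
      · subst hk
        unfold zr
        simp only [if_true]
        rw [if_neg hb, Function.update_self]
        exact htm
      · simp only [if_neg hk]
        exact hzr0 _ hx2 k
  have hcont : Continuous fun t : ℝ => (1 - t / m) ^ κ := by fun_prop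
  have hint : IntegrableOn (fun t : ℝ => (1 - t / m) ^ κ) (Ico 0 (m : ℝ)) :=
    (hcont.integrableOn_Icc (a := 0) (b := (m : ℝ))).mono_set Ico_subset_Icc_self
  have hnn : ∀ t ∈ Ico (0 : ℝ) m, 0 ≤ (1 - t / m) ^ κ := by
    intro t ht
    apply pow_nonneg
    rw [sub_nonneg, div_le_one hc]
    exact ht.2.le
  have hI : ∫ t in Ico (0 : ℝ) m, (1 - t / m) ^ κ = m / ((N : ℝ) - J.card) := by
    rw [integral_Ico_eq_integral_Ioo, ← integral_Ioc_eq_integral_Ioo,
      ← intervalIntegral.integral_of_le hc.le]
    have h1 := intervalIntegral.integral_comp_sub_div (a := 0) (b := (m : ℝ)) (fun x : ℝ => x ^ κ)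
      hc.ne' 1
    rw [h1, integral_pow, smul_eq_mul, div_self hc.ne', sub_self, zero_div, sub_zero, one_pow,
      zero_pow (Nat.succ_ne_zero κ), sub_zero]
    have h2 : (κ : ℝ) + 1 = (N : ℝ) - J.card := by
      have h3 : κ + 1 + J.card = N := by omega
      have h4 : ((κ + 1 + J.card : ℕ) : ℝ) = N := by rw [h3]
      push_cast at h4
      linarith
    rw [h2]
    ring
  have hle : volume (cyl V J) ≤ ENNReal.ofReal (m / ((N : ℝ) - J.card)) *
      volume (cyl V (insert b J)) := by
    rw [pSI N (cyl V J) b hmeas, ← hI, ofReal_integral_eq_lintegral_ofReal hint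
      ((ae_restrict_iff' measurableSet_Ico).mpr (Filter.Eventually.of_forall hnn)),
      ← lintegral_mul_const _ (hcont.measurable.ennreal_ofReal), ← lintegral_indicator measurableSet_Ico]
    exact lintegral_mono slice
  have hNJ : 0 < (N : ℝ) - J.card := by
    have : ((J.card + 1 : ℕ) : ℝ) ≤ N := by exact_mod_cast hcard
    push_cast at this
    linarith
  have h5 := ENNReal.toReal_mono (ENNReal.mul_ne_top ENNReal.ofReal_ne_top hfin') hle
  rw [ENNReal.toReal_mul, ENNReal.toReal_ofReal (by positivity)] at h5
  change W V J ≤ m / ((N : ℝ) - J.card) * W V (insert b J) at h5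
  calc ((N : ℝ) - J.card) * W V J ≤ ((N : ℝ) - J.card) * (m / ((N : ℝ) - J.card) * W V (insert b J)) :=
        mul_le_mul_of_nonneg_left h5 hNJ.le
    _ = m * W V (insert b J) := by
        field_simp

end Pool.Agent.Helper26.KG.FB3
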